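import Pool.Agent.Run7.h338.FF.Iface2

set_option autoImplicit false

/-!
# The Schwartz-Zippel lemma with multiplicities, sum form
-/

open MvPolynomial Pool.Agent.H822

namespace Run7.h626.FF

theorem msum (F : Type) [Field F] [Fintype F] (c : ℕ) :
    ∀ (μ : (Fin c → F) → ℕ) (G : MvPolynomial (Fin c) F),
      (∀ (v : Fin c → F) (γ : Fin c →₀ ℕ), γ.degree < μ v → coeff γ (sh v G) = 0) → G ≠ 0 →
      Fintype.card F * ∑ v, μ v ≤ G.totalDegree * Fintype.card F ^ c := by
  classical
  induction c with
  | zero =>
    intro μ G h hG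
    have hz : ∀ v : Fin 0 → F, μ v = 0 := by
      intro v
      by_contra hv
      apply hG
      have h0 := h v 0 (by simpa using Nat.pos_of_ne_zero hv)
      have hv0 : v = 0 := Subsingleton.elim _ _
      rw [hv0, sh_zero] at h0
      ext m
      have : m = 0 := Subsingleton.elim _ _
      rw [this, h0]; simp
    rw [Finset.sum_eq_zero (fun v _ => hz v), mul_zero]
    exact Nat.zero_le _
  | succ c ih =>
    intro μ G h hG
    set q := Fintype.card F with hq
    set H := finSuccEquiv F c G with hH
    have hH0 : H ≠ 0 := by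
      rw [hH]
      intro h0
      exact hG ((map_eq_zero_iff _ (finSuccEquiv F c).injective).1 h0)
    set i₀ := H.natDegree with hi₀
    set g := H.coeff i₀ with hg
    have hg0 : g ≠ 0 := by
      rw [hg, hi₀]
      exact Polynomial.leadingCoeff_ne_zero.2 hH0
    have hdeg : g.totalDegree + i₀ ≤ G.totalDegree :=
      totalDegree_coeff_finSuccEquiv_add_le G i₀ hg0
    have ex : ∀ v' : Fin c → F, ∃ d : ℕ, ∃ γ : Fin c →₀ ℕ, γ.degree = d ∧
        coeff γ (sh v' g) ≠ 0 := by
      intro v'
      have hne : sh v' g ≠ 0 := by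
        intro h0
        apply hg0
        have h1 : sh (-v') (sh v' g) = g := by
          rw [sh_sh, neg_add_cancel, sh_zero]
        rw [← h1, h0, map_zero]
      obtain ⟨γ, hγ⟩ := ne_zero_iff.1 hne
      exact ⟨γ.degree, γ, rfl, hγ⟩
    have hIH := ih (fun v' => Nat.find (ex v')) g (by
      intro v' γ hγ
      by_contra hne
      exact Nat.find_min (ex v') hγ ⟨γ, rfl, hne⟩) hg0
    set μ' : (Fin c → F) → ℕ := fun v' => Nat.find (ex v') with hμ'
    have key : ∀ v' : Fin c → F, ∑ a : F, μ (Fin.cons a v' : Fin (c + 1) → F) ≤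
        q * μ' v' + i₀ := by
      intro v'
      obtain ⟨γ', hγd, hγ'⟩ := Nat.find_spec (ex v')
      have hγm : γ'.degree = μ' v' := hγd
      set p := slice v' γ' H with hp
      have hpc : p.coeff i₀ = coeff γ' (sh v' g) := by
        rw [hp, coeff_slice]
      have hne : p.coeff i₀ ≠ 0 := by
        rw [hpc]
        exact hγ'
      have hp0 : p ≠ 0 := by
        intro h0; rw [h0] at hne; simp at hne
      have hpdeg : p.natDegree ≤ i₀ := natDegree_slice_le _ _ _
      have hdvd : ∀ a ∈ (Finset.univ : Finset F),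
          (Polynomial.X - Polynomial.C a) ^ (μ (Fin.cons a v' : Fin (c + 1) → F) - μ' v') ∣ p := by
        intro a _
        rw [Polynomial.X_sub_C_pow_dvd_iff, ← Polynomial.taylor_apply, Polynomial.X_pow_dvd_iff]
        intro i hi
        rw [hp, hH, taylor_slice]
        apply h
        rw [degree_cons', hγm]
        omega
      have hprod : ∏ a : F, (Polynomial.X - Polynomial.C a) ^
          (μ (Fin.cons a v' : Fin (c + 1) → F) - μ' v') ∣ p := by
        apply Finset.prod_dvd_of_coprime _ hdvd
        intro a _ b _ hab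
        apply IsCoprime.pow
        exact Polynomial.isCoprime_X_sub_C_of_isUnit_sub (sub_ne_zero.2 hab).isUnit
      have hd := Polynomial.natDegree_le_of_dvd hprod hp0
      rw [Polynomial.natDegree_prod _ _
        (fun a _ => pow_ne_zero _ (Polynomial.X_sub_C_ne_zero a))] at hd
      simp only [Polynomial.natDegree_pow, Polynomial.natDegree_X_sub_C, mul_one] at hd
      calc ∑ a : F, μ (Fin.cons a v' : Fin (c + 1) → F)
          ≤ ∑ a : F, ((μ (Fin.cons a v' : Fin (c + 1) → F) - μ' v') + μ' v') := by
            apply Finset.sum_le_sum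
            intro a _
            omega
        _ = ∑ a : F, (μ (Fin.cons a v' : Fin (c + 1) → F) - μ' v') + q * μ' v' := by
            rw [Finset.sum_add_distrib, Finset.sum_const, Finset.card_univ, smul_eq_mul]
        _ ≤ _ := by omega
    have hsum : ∑ v : Fin (c + 1) → F, μ v =
        ∑ v' : Fin c → F, ∑ a : F, μ (Fin.cons a v' : Fin (c + 1) → F) := by
      rw [← (Fin.consEquiv (fun _ : Fin (c + 1) => F)).sum_comp μ, Fintype.sum_prod_type,
        Finset.sum_comm]
      rfl
    have hcard : Fintype.card (Fin c → F) = q ^ c := by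
      rw [Fintype.card_fun, Fintype.card_fin]
    calc q * ∑ v : Fin (c + 1) → F, μ v
        ≤ q * ∑ v' : Fin c → F, (q * μ' v' + i₀) := by
          rw [hsum]
          exact Nat.mul_le_mul_left _ (Finset.sum_le_sum fun v' _ => key v')
      _ = q * (q * ∑ v', μ' v') + i₀ * q ^ (c + 1) := by
          rw [Finset.sum_add_distrib, ← Finset.mul_sum, Finset.sum_const, Finset.card_univ, hcard,
            smul_eq_mul]
          ring
      _ ≤ q * (g.totalDegree * q ^ c) + i₀ * q ^ (c + 1) :=
          Nat.add_le_add_right (Nat.mul_le_mul_left _ hIH) _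
      _ = (g.totalDegree + i₀) * q ^ (c + 1) := by ring
      _ ≤ G.totalDegree * q ^ (c + 1) := Nat.mul_le_mul_right _ hdeg

theorem t_MSUM : Pool.Agent.Run7.h338.FF.S_MSUM := by
  intro F _ _ c μ G h hG
  exact msum F c μ G h hG

end Run7.h626.FF
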